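import Mathlib
import Pool.Agent.helper989_frechet.Small

/-!
# MP_91dc65_gt: reduction of Moore's question to spaces with the property alpha one

In ZFC, either there is a countable Frechet zero-dimensional space with π-weight the bounding number
`b`, or there is a countable Frechet zero-dimensional homogeneous space with Arhangelskii's property
alpha one, whose π-weight is larger than `b`, and whose convergent sequences are determined by a
family of fewer than `b` clopen sets.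
-/

set_option autoImplicit false
set_option linter.style.haveILetI false

open Filter Topology Cardinal

namespace Pool.Agent.Results.MP_91dc65_gt.AlphaOneDichotomy

open Pool.Agent.helper989_frechet

/-- the π-weight (the least cardinality of a π-base), written as in the frozen statement -/
noncomputable def piw (X : Type) [TopologicalSpace X] : Cardinal.{0} :=
  sInf {κ : Cardinal.{0} | ∃ P : Set (Set X),
    (∀ p ∈ P, IsOpen p ∧ p.Nonempty) ∧
    (∀ U : Set X, IsOpen U → U.Nonempty → ∃ p ∈ P, p ⊆ U) ∧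
    Cardinal.mk P = κ}

/-- the bounding number, written as in the frozen statement -/
noncomputable def bnum : Cardinal.{0} :=
  sInf {κ : Cardinal.{0} | ∃ F : Set (ℕ → ℕ),
    (∀ g : ℕ → ℕ, ∃ f ∈ F, ∃ᶠ n in atTop, g n < f n) ∧ Cardinal.mk F = κ}

theorem piw_spec (X : Type) [TopologicalSpace X] : ∃ P : Set (Set X),
    (∀ p ∈ P, IsOpen p ∧ p.Nonempty) ∧
    (∀ U : Set X, IsOpen U → U.Nonempty → ∃ p ∈ P, p ⊆ U) ∧
    Cardinal.mk P = piw X := by
  have h : {κ : Cardinal.{0} | ∃ P : Set (Set X),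
      (∀ p ∈ P, IsOpen p ∧ p.Nonempty) ∧
      (∀ U : Set X, IsOpen U → U.Nonempty → ∃ p ∈ P, p ⊆ U) ∧
      Cardinal.mk P = κ}.Nonempty :=
    ⟨_, {p | IsOpen p ∧ p.Nonempty}, fun p hp => hp, fun U hU hU' => ⟨U, ⟨hU, hU'⟩,
      subset_rfl⟩, rfl⟩
  exact csInf_mem h

theorem piw_le (X : Type) [TopologicalSpace X] (P : Set (Set X))
    (h1 : ∀ p ∈ P, IsOpen p ∧ p.Nonempty)
    (h2 : ∀ U : Set X, IsOpen U → U.Nonempty → ∃ p ∈ P, p ⊆ U) : piw X ≤ Cardinal.mk P :=
  csInf_le' ⟨P, h1, h2, rfl⟩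

theorem piw_le_continuum (X : Type) [TopologicalSpace X] [Countable X] : piw X ≤ 𝔠 := by
  refine (piw_le X {p | IsOpen p ∧ p.Nonempty} (fun p hp => hp) (fun U hU hU' => ⟨U, ⟨hU, hU'⟩,
    subset_rfl⟩)).trans ?_
  refine (Cardinal.mk_set_le _).trans ?_
  rw [Cardinal.mk_set, Cardinal.continuum]
  exact Cardinal.power_le_power_left two_ne_zero Cardinal.mk_le_aleph0

theorem result :
    (∃ (X : Type) (_ : TopologicalSpace X),
      Countable X ∧ FrechetUrysohnSpace X ∧ T2Space X ∧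
      (∃ B : Set (Set X), TopologicalSpace.IsTopologicalBasis B ∧ ∀ s ∈ B, IsClopen s) ∧
      -- `X` is homogeneous
      (∀ x y : X, ∃ h : X ≃ₜ X, h x = y) ∧
      -- `X` has Arhangelskii's property alpha two
      (∀ (x : X) (u : ℕ → ℕ → X), (∀ n, Tendsto (u n) atTop (𝓝 x)) →
        ∃ v : ℕ → X, Tendsto v atTop (𝓝 x) ∧ ∀ n, ∃ᶠ j in atTop, u n j ∈ Set.range v) ∧
      -- the π-weight of `X` is the bounding number
      piw X = bnum) ∨
    (∃ (X : Type) (_ : TopologicalSpace X),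
      Countable X ∧ FrechetUrysohnSpace X ∧ T2Space X ∧
      (∃ B : Set (Set X), TopologicalSpace.IsTopologicalBasis B ∧ ∀ s ∈ B, IsClopen s) ∧
      -- `X` is homogeneous
      (∀ x y : X, ∃ h : X ≃ₜ X, h x = y) ∧
      -- the π-weight of `X` is larger than the bounding number
      bnum < piw X ∧ piw X ≤ 𝔠 ∧
      -- `X` has Arhangelskii's property alpha one
      (∀ (x : X) (u : ℕ → ℕ → X), (∀ n, Tendsto (u n) atTop (𝓝 x)) →
        ∃ v : ℕ → X, Tendsto v atTop (𝓝 x) ∧ ∀ n, ∀ᶠ j in atTop, u n j ∈ Set.range v) ∧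
      -- fewer than `b` clopen sets determine the convergent sequences of `X`
      (∃ G : Set (Set X), Cardinal.mk G < bnum ∧ (∀ s ∈ G, IsClopen s) ∧
        ∀ (x : X) (u : ℕ → X),
          Tendsto u atTop (𝓝 x) ↔ ∀ s ∈ G, x ∈ s → ∀ᶠ n in atTop, u n ∈ s)) := by
  classical
  obtain ⟨F, hF⟩ := exists_sc
  have hb : bnum = bb := rfl
  by_cases hcase : ∀ ρ, @piw _ (top (Fr F ρ)) ≤ bb
  · left
    letI := top F
    refine ⟨List ℕ, top F, inferInstance, frechet hF, t2, ⟨_, basis, fun s hs => hs⟩, homog,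
      alpha_two hF, ?_⟩
    apply le_antisymm
    · choose P hP1 hP2 hP3 using fun ρ => @piw_spec _ (top (Fr F ρ))
      refine (piw_le _ (⋃ ρ, P ρ) ?_ ?_).trans ?_
      · intro p hp
        obtain ⟨ρ, hρ⟩ := Set.mem_iUnion.1 hp
        exact ⟨isOpen_iff.2 (op_of_restrict (isOpen_iff.1 (hP1 ρ p hρ).1)), (hP1 ρ p hρ).2⟩
      · rintro V hV ⟨t, ht⟩
        by_contra hc
        have h1 : ∀ ρ, t ∈ Lim (Fr F ρ) Vᶜ := by
          intro ρ
          apply closure_subset_small (hF.small ρ)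
          letI := top (Fr F ρ)
          rw [mem_closure_iff]
          intro O hO htO
          obtain ⟨p, hp, hpO⟩ := hP2 ρ O hO ⟨t, htO⟩
          have h2 : ¬ p ⊆ V := fun h => hc ⟨p, Set.mem_iUnion.2 ⟨ρ, hp⟩, h⟩
          obtain ⟨x, hx, hx'⟩ := Set.not_subset.1 h2
          exact ⟨x, hpO hx, hx'⟩
        obtain ⟨r, hr, hr'⟩ := reduce hF Vᶜ t h1
        obtain ⟨k, hk⟩ := ((isOpen_iff.1 hV) t ht r hr).exists
        exact hr' k hk
      · rw [hb]
        have hinf : ℵ₀ ≤ bb := aleph0_lt_bb.le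
        refine (Cardinal.mk_iUnion_le _).trans ?_
        rw [Cardinal.mk_ord_toType]
        refine (mul_le_mul' le_rfl (ciSup_le' fun ρ => ?_)).trans
          (Cardinal.mul_eq_self hinf).le
        rw [hP3]
        exact hcase ρ
    · rw [hb]
      obtain ⟨P, hP, hP', hP''⟩ := piw_spec (List ℕ)
      rw [← hP'']
      by_contra hlt
      push Not at hlt
      obtain ⟨β, hβ⟩ := few hF (κ := P) (fun f => bdd_of_lt' hlt f) (fun p => p.1)
        (fun p => isOpen_iff.1 (hP p.1 p.2).1) (fun p => (hP p.1 p.2).2) []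
      obtain ⟨p, hp, hpW⟩ := hP' (Ch (F β) []) (isOpen_iff.2 (op_ch β [])) ⟨_, self_mem_ch _ _⟩
      exact hβ ⟨p, hp⟩ hpW
  · right
    push Not at hcase
    obtain ⟨ρ, hρ⟩ := hcase
    have hs : helper989_frechet.Small (Set.Iio ρ) := hF.small ρ
    letI := top (Fr F ρ)
    refine ⟨List ℕ, top (Fr F ρ), inferInstance, frechet_small hs, t2,
      ⟨_, basis, fun s hs => hs⟩, homog, hρ, piw_le_continuum _, alpha_one hs,
      Gf (Fr F ρ), ?_, gf_clopen, gf_tendsto⟩
    rw [hb]
    have hinf : ℵ₀ ≤ bb := aleph0_lt_bb.le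
    have hseg : Cardinal.mk (Set.Iio ρ) < bb := Cardinal.mk_Iio_toType_ord_lt ρ
    have hL : Cardinal.mk (List ℕ) < bb := lt_of_le_of_lt Cardinal.mk_le_aleph0 aleph0_lt_bb
    have hN : Cardinal.mk (ℕ × List ℕ) < bb := lt_of_le_of_lt Cardinal.mk_le_aleph0 aleph0_lt_bb
    have hS : Cardinal.mk (Set.Iio ρ × List ℕ) < bb := by
      rw [Cardinal.mk_prod, Cardinal.lift_id, Cardinal.lift_id]
      exact Cardinal.mul_lt_of_lt hinf hseg hL
    refine lt_of_le_of_lt (Cardinal.mk_union_le _ _) (Cardinal.add_lt_of_lt hinf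
      (lt_of_le_of_lt (Cardinal.mk_union_le _ _) (Cardinal.add_lt_of_lt hinf ?_ ?_)) ?_)
    · exact lt_of_le_of_lt Cardinal.mk_range_le hL
    · exact lt_of_le_of_lt Cardinal.mk_range_le hN
    · exact lt_of_le_of_lt Cardinal.mk_range_le hS

end Pool.Agent.Results.MP_91dc65_gt.AlphaOneDichotomy
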