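import Mathlib
import Pool.Agent.helper989_frechet.Alpha

/-!
# MP_91dc65_gt: a countable homogeneous zero-dimensional Frechet space with π-weight at least b

In ZFC there is a countable, homogeneous, zero-dimensional Frechet-Urysohn space with Arhangelskii's
property alpha two, all of whose points have π-character at least the bounding number `b`; in
particular `b ≤ πw(X) ≤ 2^ω`.
-/

set_option autoImplicit false
set_option linter.style.haveILetI false

open Filter Topology Cardinal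

namespace Pool.Agent.Results.MP_91dc65_gt.HomogeneousAboveB

open Pool.Agent.helper989_frechet

theorem result :
    ∃ (X : Type) (_ : TopologicalSpace X),
      Countable X ∧ FrechetUrysohnSpace X ∧ T2Space X ∧
      (∃ B : Set (Set X), TopologicalSpace.IsTopologicalBasis B ∧ ∀ s ∈ B, IsClopen s) ∧
      -- `X` is homogeneous
      (∀ x y : X, ∃ h : X ≃ₜ X, h x = y) ∧
      -- `X` has Arhangelskii's property alpha two
      (∀ (x : X) (u : ℕ → ℕ → X), (∀ n, Tendsto (u n) atTop (𝓝 x)) →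
        ∃ v : ℕ → X, Tendsto v atTop (𝓝 x) ∧ ∀ n, ∃ᶠ j in atTop, u n j ∈ Set.range v) ∧
      -- every point of `X` has π-character at least the bounding number
      (∀ (x : X) (P : Set (Set X)), (∀ p ∈ P, IsOpen p ∧ p.Nonempty) →
        Cardinal.mk P < sInf {κ : Cardinal.{0} | ∃ F : Set (ℕ → ℕ),
          (∀ g : ℕ → ℕ, ∃ f ∈ F, ∃ᶠ n in atTop, g n < f n) ∧ Cardinal.mk F = κ} →
        ∃ W : Set X, IsOpen W ∧ x ∈ W ∧ ∀ p ∈ P, ¬ p ⊆ W) ∧
      -- the bounding number is at most the π-weight of `X`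
      sInf {κ : Cardinal.{0} | ∃ F : Set (ℕ → ℕ),
          (∀ g : ℕ → ℕ, ∃ f ∈ F, ∃ᶠ n in atTop, g n < f n) ∧
          Cardinal.mk F = κ}
        ≤ sInf {κ : Cardinal.{0} | ∃ P : Set (Set X),
          (∀ p ∈ P, IsOpen p ∧ p.Nonempty) ∧
          (∀ U : Set X, IsOpen U → U.Nonempty → ∃ p ∈ P, p ⊆ U) ∧
          Cardinal.mk P = κ} ∧
      -- the π-weight of `X` is at most the cardinality of the continuum
      sInf {κ : Cardinal.{0} | ∃ P : Set (Set X),
          (∀ p ∈ P, IsOpen p ∧ p.Nonempty) ∧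
          (∀ U : Set X, IsOpen U → U.Nonempty → ∃ p ∈ P, p ⊆ U) ∧
          Cardinal.mk P = κ} ≤ 𝔠 := by
  classical
  obtain ⟨F, hF⟩ := exists_sc
  letI := top F
  have key : ∀ (x : List ℕ) (P : Set (Set (List ℕ))),
      (∀ p ∈ P, IsOpen[top F] p ∧ p.Nonempty) → Cardinal.mk P < bb →
        ∃ W : Set (List ℕ), IsOpen[top F] W ∧ x ∈ W ∧ ∀ p ∈ P, ¬ p ⊆ W := by
    intro x P hP hlt
    obtain ⟨β, hβ⟩ := few hF (κ := P) (fun f => bdd_of_lt' hlt f) (fun p => p.1)
      (fun p => isOpen_iff.1 (hP p.1 p.2).1) (fun p => (hP p.1 p.2).2) x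
    exact ⟨Ch (F β) x, isOpen_iff.2 (op_ch β x), self_mem_ch _ _, fun p hp => hβ ⟨p, hp⟩⟩
  refine ⟨List ℕ, top F, inferInstance, frechet hF, t2, ⟨_, basis, fun s hs => hs⟩, homog,
    alpha_two hF, key, ?_, ?_⟩
  · apply le_csInf
    · exact ⟨_, {p | IsOpen p ∧ p.Nonempty}, fun p hp => hp, fun U hU hU' => ⟨U, ⟨hU, hU'⟩,
        subset_rfl⟩, rfl⟩
    · rintro κ ⟨P, hP, hP', rfl⟩
      by_contra hc
      push Not at hc
      obtain ⟨W, hW, hxW, hW'⟩ := key [] P hP hc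
      obtain ⟨p, hp, hpW⟩ := hP' W hW ⟨_, hxW⟩
      exact hW' p hp hpW
  · have hmem : Cardinal.mk {p : Set (List ℕ) | IsOpen[top F] p ∧ p.Nonempty} ∈
        {κ : Cardinal.{0} | ∃ P : Set (Set (List ℕ)),
          (∀ p ∈ P, IsOpen[top F] p ∧ p.Nonempty) ∧
          (∀ U : Set (List ℕ), IsOpen[top F] U → U.Nonempty → ∃ p ∈ P, p ⊆ U) ∧
          Cardinal.mk P = κ} :=
      ⟨_, fun p hp => hp, fun U hU hU' => ⟨U, ⟨hU, hU'⟩, subset_rfl⟩, rfl⟩
    refine (csInf_le' hmem).trans ?_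
    refine (Cardinal.mk_set_le _).trans ?_
    rw [Cardinal.mk_set]
    simp

end Pool.Agent.Results.MP_91dc65_gt.HomogeneousAboveB
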